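import Pool.Agent.KS6_69.Ric.H662.Rg.Defs

set_option autoImplicit false
set_option linter.unusedVariables false

namespace Pool.Agent.KS6_69.Ric.H662.Rg
open Set Filter Topology ComplexConjugate


theorem ric_ineq {q b Bt Aa K₀ β : ℝ} {e w y ν : ℂ} (hq : 0 < q) (hb : 0 < b) (hBt : 0 < Bt)
    (hβ : β = b * ‖w‖ ^ 2) (hA : 2 * β * ‖e‖ ^ 2 / Bt ≤ Aa) (hK0 : 0 ≤ K₀) (hK : K₀ ≤ 1 / 2)
    (hKq : K₀ * q ^ 2 ≤ Aa + q * Bt) :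
    K₀ * (q * ‖y‖ ^ 2 + b * ‖ν‖ ^ 2) ≤
      2 * Aa * ‖y‖ ^ 2 / q + 2 * (2 * b) * ‖ν‖ ^ 2 + b * Bt * (2 * ‖ν‖ ^ 2 / q + 2 * ‖y‖ ^ 2 / b)
        + 4 * (conj y * ν * conj ((b : ℂ) * w * e)).re / q := by
  have hcross : -(b * ‖w‖ * ‖e‖ * ‖y‖ * ‖ν‖) ≤ (conj y * ν * conj ((b : ℂ) * w * e)).re := by
    have h1 := Complex.abs_re_le_norm (conj y * ν * conj ((b : ℂ) * w * e))
    have h2 : ‖conj y * ν * conj ((b : ℂ) * w * e)‖ = b * ‖w‖ * ‖e‖ * ‖y‖ * ‖ν‖ := by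
      simp only [norm_mul, Complex.norm_conj, Complex.norm_real, Real.norm_eq_abs, abs_of_pos hb]
      ring
    have h3 := neg_abs_le (conj y * ν * conj ((b : ℂ) * w * e)).re
    linarith
  set C := (conj y * ν * conj ((b : ℂ) * w * e)).re with hC
  set Y := ‖y‖
  set N := ‖ν‖
  set W := ‖w‖
  set E := ‖e‖
  have hA' : 2 * b * W ^ 2 * E ^ 2 / Bt * Y ^ 2 ≤ Aa * Y ^ 2 := by
    apply mul_le_mul_of_nonneg_right _ (sq_nonneg Y)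
    rw [hβ] at hA
    calc 2 * b * W ^ 2 * E ^ 2 / Bt = 2 * (b * W ^ 2) * E ^ 2 / Bt := by ring
      _ ≤ Aa := hA
  have hsq : 0 ≤ 2 * b / Bt * (W * E * Y - Bt * N) ^ 2 := by positivity
  have hsq' : 2 * b / Bt * (W * E * Y - Bt * N) ^ 2 =
      2 * b * W ^ 2 * E ^ 2 / Bt * Y ^ 2 + 2 * b * Bt * N ^ 2 - 4 * (b * W * E * Y * N) := by
    field_simp
    ring
  have h1 : 0 ≤ (Aa + q * Bt - K₀ * q ^ 2) * Y ^ 2 :=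
    mul_nonneg (by linarith) (sq_nonneg Y)
  have h2 : 0 ≤ (4 - K₀) * (b * q * N ^ 2) := mul_nonneg (by linarith) (by positivity)
  have h3 : 0 ≤ q * Bt * Y ^ 2 := by positivity
  have key : 0 ≤ 2 * Aa * Y ^ 2 + 4 * b * q * N ^ 2 + 2 * b * Bt * N ^ 2 + 2 * q * Bt * Y ^ 2
      + 4 * C - K₀ * q ^ 2 * Y ^ 2 - K₀ * b * q * N ^ 2 := by
    rw [hsq'] at hsq
    nlinarith
  have e1 : 2 * Aa * Y ^ 2 / q + 2 * (2 * b) * N ^ 2 + b * Bt * (2 * N ^ 2 / q + 2 * Y ^ 2 / b)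
        + 4 * C / q - K₀ * (q * Y ^ 2 + b * N ^ 2) =
      (2 * Aa * Y ^ 2 + 4 * b * q * N ^ 2 + 2 * b * Bt * N ^ 2 + 2 * q * Bt * Y ^ 2
      + 4 * C - K₀ * q ^ 2 * Y ^ 2 - K₀ * b * q * N ^ 2) / q := by
    field_simp
    ring
  have e2 := div_nonneg key hq.le
  linarith

end Pool.Agent.KS6_69.Ric.H662.Rg
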