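import Pool.Agent.KS6_69.Ric.H662.Rg.Defs

set_option autoImplicit false
set_option linter.unusedVariables false

namespace Pool.Agent.KS6_69.Ric.H662.Rg
open Set Filter Topology ComplexConjugate


theorem h23472_D {Y g θ T V q D2 N : ℝ} (hY : 0 ≤ Y) (hθ : 1 ≤ θ) (hθT : θ ≤ T) (hV : 0 ≤ V)
    (hg : 0 < g) (hq : q = g + Y * θ) (hN : N = (2 * Y + 1) * g + Y ^ 2 * θ) (hD0 : 0 ≤ D2)
    (hD : D2 ≤ 2 * g ^ 2 * (θ ^ 2 * V + T ^ 2)) :
    -(T * V + T ^ 2) ≤ Y * D2 / (g * θ * q) - 2 * Y * (Y + 1) * D2 / (q * θ * N) := by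
  have hθ0 : 0 < θ := by linarith
  have hT0 : 0 < T := by linarith
  have hq0 : 0 < q := by rw [hq]; positivity
  have hN0 : 0 < N := by rw [hN]; positivity
  have e : Y * D2 / (g * θ * q) - 2 * Y * (Y + 1) * D2 / (q * θ * N) =
      Y * D2 * (N - 2 * (Y + 1) * g) / (g * θ * q * N) := by
    field_simp
  rw [e, neg_le, ← neg_div, div_le_iff₀ (by positivity)]
  have e2 : -(Y * D2 * (N - 2 * (Y + 1) * g)) = Y * D2 * (g - Y ^ 2 * θ) := by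
    rw [hN]
    ring
  rw [e2]
  have s1 : Y * D2 * (g - Y ^ 2 * θ) ≤ Y * D2 * g := by
    apply mul_le_mul_of_nonneg_left _ (by positivity)
    have : 0 ≤ Y ^ 2 * θ := by positivity
    linarith
  have s2 : θ ^ 2 * V + T ^ 2 ≤ θ * (T * V + T ^ 2) := by
    have a1 : θ * V * (T - θ) ≥ 0 := mul_nonneg (by positivity) (by linarith)
    have a2 : (θ - 1) * T ^ 2 ≥ 0 := mul_nonneg (by linarith) (by positivity)
    nlinarith
  have s3 : 2 * Y * g ^ 2 ≤ q * N := by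
    have a1 : g ≤ q := by
      rw [hq]
      have : 0 ≤ Y * θ := by positivity
      linarith
    have a2 : 2 * Y * g ≤ N := by
      rw [hN]
      have : 0 ≤ g + Y ^ 2 * θ := by positivity
      linarith
    have := mul_le_mul a1 a2 (by positivity) hq0.le
    nlinarith
  have s4 : Y * D2 * g ≤ Y * (2 * g ^ 2 * (θ * (T * V + T ^ 2))) * g := by
    apply mul_le_mul_of_nonneg_right _ hg.le
    apply mul_le_mul_of_nonneg_left _ hY
    refine hD.trans ?_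
    apply mul_le_mul_of_nonneg_left s2 (by positivity)
  have s5 : 2 * Y * g ^ 2 * (θ * (T * V + T ^ 2) * g) ≤ q * N * (θ * (T * V + T ^ 2) * g) :=
    mul_le_mul_of_nonneg_right s3 (by positivity)
  calc Y * D2 * (g - Y ^ 2 * θ) ≤ Y * D2 * g := s1
    _ ≤ Y * (2 * g ^ 2 * (θ * (T * V + T ^ 2))) * g := s4
    _ = 2 * Y * g ^ 2 * (θ * (T * V + T ^ 2) * g) := by ring
    _ ≤ q * N * (θ * (T * V + T ^ 2) * g) := s5
    _ = (T * V + T ^ 2) * (g * θ * q * N) := by ring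

theorem h23472_B {Y g θ q Bt : ℝ} (hY : 0 ≤ Y) (hθ : 1 ≤ θ) (hg : 0 < g) (hq : q = g + Y * θ)
    (hBt : Bt = (2 * Y + 1) * θ - Y * (Y + 1) * θ ^ 2 / q) :
    -(θ ^ 2 / 2) + θ ^ 3 * Y * (Y + 1) * (3 * Y + 1) / (2 * q) ≤
      2 * (Y * (Y + 1)) * θ ^ 2 - Bt ^ 2 / 2 := by
  have hθ0 : 0 < θ := by linarith
  have hq0 : 0 < q := by rw [hq]; positivity
  set p := Y * (Y + 1) * θ / q with hp
  have hp0 : 0 ≤ p := by rw [hp]; positivity
  have hp1 : p ≤ Y + 1 := by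
    rw [hp, div_le_iff₀ hq0]
    have : Y * θ ≤ q := by rw [hq]; linarith
    nlinarith
  have e1 : Bt = θ * (2 * Y + 1 - p) := by
    rw [hBt, hp]
    ring
  have e2 : θ ^ 3 * Y * (Y + 1) * (3 * Y + 1) / (2 * q) = θ ^ 2 * (p * (3 * Y + 1) / 2) := by
    rw [hp]
    ring
  rw [e1, e2]
  have h1 : 0 ≤ θ ^ 2 * (p * (Y + 1 - p)) := mul_nonneg (by positivity)
    (mul_nonneg hp0 (by linarith))
  nlinarith

theorem h23472_C {Y g θ T q : ℝ} (hY : 0 ≤ Y) (hθ : 1 ≤ θ) (hθT : θ ≤ T)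
    (hg : 200 * T ^ 6 ≤ g) (hq : q = g + Y * θ) :
    2 * Y * T ^ 2 ≤ g / 4 + θ ^ 3 * Y * (Y + 1) * (3 * Y + 1) / (2 * q) := by
  have hθ0 : 0 < θ := by linarith
  have hT1 : 1 ≤ T := by linarith
  have hT0 : 0 < T := by linarith
  have hT6 : T ^ 2 ≤ T ^ 6 := pow_le_pow_right₀ hT1 (by norm_num)
  have hg0 : 0 < g := by
    have : 0 < T ^ 6 := by positivity
    linarith
  have hq0 : 0 < q := by rw [hq]; positivity
  rcases le_total g (Y * θ) with h | h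
  · have h1 : (3 / 4) * Y * g ≤ θ ^ 3 * Y * (Y + 1) * (3 * Y + 1) / (2 * q) := by
      rw [le_div_iff₀ (by positivity)]
      have b1 : q ≤ 2 * (Y * θ) := by rw [hq]; linarith
      have b2 : (3 / 4) * Y * g * (2 * q) ≤ (3 / 4) * Y * (Y * θ) * (2 * (2 * (Y * θ))) := by
        apply mul_le_mul
        · exact mul_le_mul_of_nonneg_left h (by positivity)
        · linarith
        · positivity
        · positivity
      have b3 : (3 / 4) * Y * (Y * θ) * (2 * (2 * (Y * θ))) ≤ θ ^ 3 * Y * (Y + 1) * (3 * Y + 1) := by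
        have c1 : (3 / 4) * Y * (Y * θ) * (2 * (2 * (Y * θ))) = θ ^ 2 * Y * (3 * Y ^ 2) := by ring
        have c2 : θ ^ 3 * Y * (Y + 1) * (3 * Y + 1) = θ ^ 2 * Y * (θ * ((Y + 1) * (3 * Y + 1))) := by
          ring
        rw [c1, c2]
        apply mul_le_mul_of_nonneg_left _ (by positivity)
        nlinarith [mul_nonneg (sub_nonneg.mpr hθ) (show (0:ℝ) ≤ (Y + 1) * (3 * Y + 1) by positivity)]
      linarith
    have h2 : 2 * Y * T ^ 2 ≤ (3 / 4) * Y * g := by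
      have : Y * (2 * T ^ 2) ≤ Y * (3 / 4 * g) := by
        apply mul_le_mul_of_nonneg_left _ hY
        have : 0 < T ^ 6 := by positivity
        linarith
      linarith
    linarith
  · have h1 : (3 / 4) * Y ^ 3 / g ≤ θ ^ 3 * Y * (Y + 1) * (3 * Y + 1) / (2 * q) := by
      rw [div_le_div_iff₀ hg0 (by positivity)]
      have b1 : q ≤ 2 * g := by rw [hq]; linarith
      have hθ3 : 1 ≤ θ ^ 3 := one_le_pow₀ hθ
      have b2 : (3 / 4) * Y ^ 3 * (2 * q) ≤ (3 / 4) * Y ^ 3 * (2 * (2 * g)) :=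
        mul_le_mul_of_nonneg_left (by linarith) (by positivity)
      have b3 : (3 / 4) * Y ^ 3 * (2 * (2 * g)) = 3 * Y ^ 3 * g := by ring
      have b4 : 3 * Y ^ 3 ≤ θ ^ 3 * Y * (Y + 1) * (3 * Y + 1) := by
        have c1 : 3 * Y ^ 3 ≤ Y * (Y + 1) * (3 * Y + 1) := by
          nlinarith [mul_nonneg hY hY]
        have c2 : Y * (Y + 1) * (3 * Y + 1) ≤ θ ^ 3 * (Y * (Y + 1) * (3 * Y + 1)) :=
          le_mul_of_one_le_left (by positivity) hθ3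
        linarith
      have b5 := mul_le_mul_of_nonneg_right b4 hg0.le
      linarith
    rcases le_total (8 * T ^ 2 * Y) g with h3 | h3
    · have : 0 ≤ (3 / 4) * Y ^ 3 / g := by positivity
      linarith
    · have h4 : 2 * Y * T ^ 2 ≤ (3 / 4) * Y ^ 3 / g := by
        rw [le_div_iff₀ hg0]
        -- g ≤ 8 T^2 Y, need 2 Y T^2 g ≤ 3/4 Y^3
        have d1 : g ^ 2 ≤ 64 * T ^ 4 * Y ^ 2 := by
          have := pow_le_pow_left₀ hg0.le h3 2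
          nlinarith
        have d2 : 200 * T ^ 6 * g ≤ g ^ 2 := by nlinarith
        have d3 : 200 * T ^ 6 * g ≤ 64 * T ^ 4 * Y ^ 2 := d2.trans d1
        have d4 : T ^ 4 * (200 * T ^ 2 * g) ≤ T ^ 4 * (64 * Y ^ 2) := by nlinarith
        have d5 : 200 * T ^ 2 * g ≤ 64 * Y ^ 2 := le_of_mul_le_mul_left d4 (by positivity)
        have d6 : Y * (200 * T ^ 2 * g) ≤ Y * (64 * Y ^ 2) := mul_le_mul_of_nonneg_left d5 hY
        have d7 : 0 ≤ Y ^ 3 := by positivity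
        nlinarith
      linarith

theorem star {Y g θ T V kθ gzz q β Bt Aa : ℝ} {σ γ qz e : ℂ}
    (hY : 0 ≤ Y) (hθ : 1 ≤ θ) (hθT : θ ≤ T) (hσ : ‖σ‖ ≤ T) (hkθ : |kθ| ≤ T) (hV : 0 ≤ V)
    (hγ : ‖γ‖ ^ 2 ≤ V * g ^ 2) (hg : 200 * (T ^ 6 + V * T) ≤ g) (hgz : g ≤ gzz - ‖γ‖ ^ 2 / g)
    (hq : q = g + Y * θ) (hβ : β = Y * (Y + 1)) (hqz : qz = γ + (Y : ℂ) * σ)
    (he : e = σ - (θ : ℂ) * qz / (q : ℂ)) (hBt : Bt = (2 * Y + 1) * θ - β * θ ^ 2 / q)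
    (hAa : Aa = 2 * β * θ ^ 2 + (gzz + Y * kθ) - ‖qz‖ ^ 2 / q) :
    0 < Bt ∧ (gzz - ‖γ‖ ^ 2 / g) / 2 ≤ Aa - 2 * β * ‖e‖ ^ 2 / Bt - Bt ^ 2 / 2 := by
  have hT1 : 1 ≤ T := by linarith
  have hT0 : 0 < T := by linarith
  have hθ0 : 0 < θ := by linarith
  have hT6 : T ^ 2 ≤ T ^ 6 := pow_le_pow_right₀ hT1 (by norm_num)
  have hT60 : 0 < T ^ 6 := by positivity
  have hVT : 0 ≤ V * T := by positivity
  have hg6 : 200 * T ^ 6 ≤ g := by linarith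
  have hg0 : 0 < g := by linarith
  have hq0 : 0 < q := by rw [hq]; positivity
  set N := (2 * Y + 1) * g + Y ^ 2 * θ with hN
  have hN0 : 0 < N := by rw [hN]; positivity
  have hBt' : Bt = θ * N / q := by
    rw [hBt, hβ, hN, eq_div_iff hq0.ne']
    field_simp
    rw [hq]
    ring
  have hBt0 : 0 < Bt := by rw [hBt']; positivity
  refine ⟨hBt0, ?_⟩
  set D2 := (θ * γ.re - g * σ.re) ^ 2 + (θ * γ.im - g * σ.im) ^ 2 with hD2
  have ea : ‖γ‖ ^ 2 = γ.re ^ 2 + γ.im ^ 2 := by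
    rw [Complex.sq_norm, Complex.normSq_apply]
    ring
  have eb : ‖σ‖ ^ 2 = σ.re ^ 2 + σ.im ^ 2 := by
    rw [Complex.sq_norm, Complex.normSq_apply]
    ring
  have eq' : ‖qz‖ ^ 2 = (γ.re + Y * σ.re) ^ 2 + (γ.im + Y * σ.im) ^ 2 := by
    rw [hqz, Complex.sq_norm, Complex.normSq_apply]
    simp
    ring
  have ee : ‖e‖ ^ 2 = D2 / q ^ 2 := by
    have h1 : e = -((θ : ℂ) * γ - (g : ℂ) * σ) / (q : ℂ) := by
      have hqc : (q : ℂ) ≠ 0 := by exact_mod_cast hq0.ne'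
      rw [he, hqz, eq_div_iff hqc, sub_mul, div_mul_cancel₀ _ hqc, hq]
      push_cast
      ring
    rw [h1, norm_div, norm_neg, div_pow]
    congr 1
    · rw [Complex.sq_norm, Complex.normSq_apply, hD2]
      simp
      ring
    · rw [Complex.norm_real, Real.norm_of_nonneg hq0.le]
  have hbT : ‖σ‖ ^ 2 ≤ T ^ 2 := pow_le_pow_left₀ (norm_nonneg _) hσ 2
  have hD0 : 0 ≤ D2 := by rw [hD2]; positivity
  have hDle : D2 ≤ 2 * g ^ 2 * (θ ^ 2 * V + T ^ 2) := by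
    have h1 : D2 ≤ 2 * θ ^ 2 * (γ.re ^ 2 + γ.im ^ 2) + 2 * g ^ 2 * (σ.re ^ 2 + σ.im ^ 2) := by
      rw [hD2]
      linarith [sq_nonneg (θ * γ.re + g * σ.re), sq_nonneg (θ * γ.im + g * σ.im)]
    rw [← ea, ← eb] at h1
    have h2 : 2 * θ ^ 2 * ‖γ‖ ^ 2 ≤ 2 * θ ^ 2 * (V * g ^ 2) :=
      mul_le_mul_of_nonneg_left hγ (by positivity)
    have h3 : 2 * g ^ 2 * ‖σ‖ ^ 2 ≤ 2 * g ^ 2 * T ^ 2 :=
      mul_le_mul_of_nonneg_left hbT (by positivity)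
    linarith
  have k1 := h23472_D hY hθ hθT hV hg0 hq hN hD0 hDle
  have k2 := h23472_B (Bt := Bt) hY hθ hg0 hq (by rw [hBt, hβ])
  have k3 := h23472_C hY hθ hθT hg6 hq
  have i1 : ‖qz‖ ^ 2 / q = ‖γ‖ ^ 2 / g + Y * (‖σ‖ ^ 2 / θ) - Y * D2 / (g * θ * q) := by
    rw [eq', ea, eb, hD2, hq]
    have : g + Y * θ ≠ 0 := by rw [← hq]; exact hq0.ne'
    field_simp
    ring
  have i2 : 2 * β * ‖e‖ ^ 2 / Bt = 2 * Y * (Y + 1) * D2 / (q * θ * N) := by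
    rw [ee, hBt', hβ]
    field_simp
  have k4 : -(2 * Y * T ^ 2) ≤ Y * (kθ - ‖σ‖ ^ 2 / θ) := by
    have h1 : ‖σ‖ ^ 2 / θ ≤ T ^ 2 := by
      rw [div_le_iff₀ hθ0]
      have : T ^ 2 * 1 ≤ T ^ 2 * θ := mul_le_mul_of_nonneg_left hθ (by positivity)
      linarith
    have h2 : -T ≤ kθ := (abs_le.mp hkθ).1
    have h3 : T ≤ T ^ 2 := by nlinarith
    have h4 : Y * (-(2 * T ^ 2)) ≤ Y * (kθ - ‖σ‖ ^ 2 / θ) :=
      mul_le_mul_of_nonneg_left (by linarith) hY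
    linarith
  have k5 : θ ^ 2 ≤ T ^ 2 := pow_le_pow_left₀ hθ0.le hθT 2
  have tot : Aa - 2 * β * ‖e‖ ^ 2 / Bt - Bt ^ 2 / 2 = (gzz - ‖γ‖ ^ 2 / g) +
      Y * (kθ - ‖σ‖ ^ 2 / θ) +
      (Y * D2 / (g * θ * q) - 2 * Y * (Y + 1) * D2 / (q * θ * N)) +
      (2 * (Y * (Y + 1)) * θ ^ 2 - Bt ^ 2 / 2) := by
    rw [i2, hAa, i1, hβ]
    ring
  rw [tot]
  have k6 : T * V + T ^ 2 + T ^ 2 / 2 ≤ g / 4 := by
    have z1 : 200 * T ^ 6 + 200 * (V * T) ≤ g := by linarith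
    have z2 : T * V = V * T := mul_comm _ _
    rw [z2]
    linarith
  linarith

end Pool.Agent.KS6_69.Ric.H662.Rg
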