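import Pool.Agent.KS6_69.Ric.H662.Rg.Defs

set_option autoImplicit false
set_option linter.unusedVariables false

namespace Pool.Agent.KS6_69.Ric.H662.Rg
open Set Filter Topology ComplexConjugate


theorem tr_ortho {q b : ℝ} (X X' N N' : Fin 4 → ℝ)
    (h : ∀ i j, q * (X i * X j + X' i * X' j) + b * (N i * N j + N' i * N' j)
      = if i = j then 1 else 0) :
    (q * ∑ i, X i * X i = 1) ∧ (q * ∑ i, X' i * X' i = 1) ∧ (q * ∑ i, X i * X' i = 0) ∧
    (b * ∑ i, N i * N i = 1) ∧ (b * ∑ i, N' i * N' i = 1) ∧ (b * ∑ i, N i * N' i = 0) ∧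
    (q * ∑ i, X i * N i = 0) ∧ (q * ∑ i, X i * N' i = 0) ∧ (q * ∑ i, X' i * N i = 0) ∧
    (q * ∑ i, X' i * N' i = 0) := by
  let E : Matrix (Fin 4) (Fin 4) ℝ := Matrix.of fun i j => ![X i, X' i, N i, N' i] j
  let F : Matrix (Fin 4) (Fin 4) ℝ :=
    Matrix.of fun i j => ![q * X j, q * X' j, b * N j, b * N' j] i
  have hEF : E * F = 1 := by
    ext i j
    rw [Matrix.mul_apply, Fin.sum_univ_four, Matrix.one_apply, ← h i j]
    show X i * (q * X j) + X' i * (q * X' j) + N i * (b * N j) + N' i * (b * N' j) = _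
    ring
  have hFE : F * E = 1 := mul_eq_one_comm.mp hEF
  have g : ∀ a c, ∑ i, F a i * E i c = if a = c then 1 else 0 := by
    intro a c
    rw [← Matrix.mul_apply, hFE, Matrix.one_apply]
  refine ⟨?_, ?_, ?_, ?_, ?_, ?_, ?_, ?_, ?_, ?_⟩
  · have g1 := g 0 0
    rw [if_pos rfl] at g1
    rw [← g1, Finset.mul_sum]
    refine Finset.sum_congr rfl fun i _ => ?_
    show q * (X i * X i) = q * X i * X i
    ring
  · have g1 := g 1 1
    rw [if_pos rfl] at g1
    rw [← g1, Finset.mul_sum]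
    refine Finset.sum_congr rfl fun i _ => ?_
    show q * (X' i * X' i) = q * X' i * X' i
    ring
  · have g1 := g 0 1
    rw [if_neg (by decide)] at g1
    rw [← g1, Finset.mul_sum]
    refine Finset.sum_congr rfl fun i _ => ?_
    show q * (X i * X' i) = q * X i * X' i
    ring
  · have g1 := g 2 2
    rw [if_pos rfl] at g1
    rw [← g1, Finset.mul_sum]
    refine Finset.sum_congr rfl fun i _ => ?_
    show b * (N i * N i) = b * N i * N i
    ring
  · have g1 := g 3 3
    rw [if_pos rfl] at g1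
    rw [← g1, Finset.mul_sum]
    refine Finset.sum_congr rfl fun i _ => ?_
    show b * (N' i * N' i) = b * N' i * N' i
    ring
  · have g1 := g 2 3
    rw [if_neg (by decide)] at g1
    rw [← g1, Finset.mul_sum]
    refine Finset.sum_congr rfl fun i _ => ?_
    show b * (N i * N' i) = b * N i * N' i
    ring
  · have g1 := g 0 2
    rw [if_neg (by decide)] at g1
    rw [← g1, Finset.mul_sum]
    refine Finset.sum_congr rfl fun i _ => ?_
    show q * (X i * N i) = q * X i * N i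
    ring
  · have g1 := g 0 3
    rw [if_neg (by decide)] at g1
    rw [← g1, Finset.mul_sum]
    refine Finset.sum_congr rfl fun i _ => ?_
    show q * (X i * N' i) = q * X i * N' i
    ring
  · have g1 := g 1 2
    rw [if_neg (by decide)] at g1
    rw [← g1, Finset.mul_sum]
    refine Finset.sum_congr rfl fun i _ => ?_
    show q * (X' i * N i) = q * X' i * N i
    ring
  · have g1 := g 1 3
    rw [if_neg (by decide)] at g1
    rw [← g1, Finset.mul_sum]
    refine Finset.sum_congr rfl fun i _ => ?_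
    show q * (X' i * N' i) = q * X' i * N' i
    ring

theorem tr_expand (A bc bB : ℝ) (x n β y ν : ℂ) :
    (2 * A * (x * conj y).im ^ 2 + 2 * bc * (n * conj ν).im ^ 2
        + 4 * bB * (x * conj y).im * (n * conj ν).im
        + bB * ‖x * conj ν - y * conj n‖ ^ 2
        + 4 * (x * conj y).im * (β * (x * conj ν - y * conj n)).im) =
    (2 * A * y.im ^ 2 + bB * (ν.re ^ 2 + ν.im ^ 2)
        - 4 * y.im * (β.im * ν.re - β.re * ν.im)) * (x.re * x.re)
      + (2 * A * y.re ^ 2 + bB * (ν.re ^ 2 + ν.im ^ 2)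
        + 4 * y.re * (β.re * ν.re + β.im * ν.im)) * (x.im * x.im)
      + (-4 * A * y.re * y.im + 4 * y.re * (β.im * ν.re - β.re * ν.im)
        - 4 * y.im * (β.re * ν.re + β.im * ν.im)) * (x.re * x.im)
      + (2 * bc * ν.im ^ 2 + bB * (y.re ^ 2 + y.im ^ 2)) * (n.re * n.re)
      + (2 * bc * ν.re ^ 2 + bB * (y.re ^ 2 + y.im ^ 2)) * (n.im * n.im)
      + (-4 * bc * ν.re * ν.im) * (n.re * n.im)
      + (4 * bB * y.im * ν.im + bB * (-2 * ν.re * y.re + 2 * ν.im * y.im)
        - 4 * y.im * (-β.re * y.im - β.im * y.re)) * (x.re * n.re)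
      + (-4 * bB * y.im * ν.re + bB * (-2 * ν.re * y.im - 2 * ν.im * y.re)
        - 4 * y.im * (β.re * y.re - β.im * y.im)) * (x.re * n.im)
      + (-4 * bB * y.re * ν.im + bB * (-2 * ν.im * y.re - 2 * ν.re * y.im)
        + 4 * y.re * (-β.re * y.im - β.im * y.re)) * (x.im * n.re)
      + (4 * bB * y.re * ν.re + bB * (-2 * ν.im * y.im + 2 * ν.re * y.re)
        + 4 * y.re * (β.re * y.re - β.im * y.im)) * (x.im * n.im) := by
  rw [← Complex.normSq_eq_norm_sq, Complex.normSq_apply]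
  simp only [Complex.mul_re, Complex.mul_im, Complex.sub_re, Complex.sub_im, Complex.conj_re,
    Complex.conj_im]
  ring

theorem tr_sum (c0 c1 c2 c3 c4 c5 c6 c7 c8 c9 : ℝ) (X X' N N' : Fin 4 → ℝ) :
    ∑ i, (c0 * (X i * X i) + c1 * (X' i * X' i) + c2 * (X i * X' i) + c3 * (N i * N i)
      + c4 * (N' i * N' i) + c5 * (N i * N' i) + c6 * (X i * N i) + c7 * (X i * N' i)
      + c8 * (X' i * N i) + c9 * (X' i * N' i)) =
    c0 * ∑ i, (X i * X i) + c1 * ∑ i, (X' i * X' i) + c2 * ∑ i, (X i * X' i)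
      + c3 * ∑ i, (N i * N i)
      + c4 * ∑ i, (N' i * N' i) + c5 * ∑ i, (N i * N' i) + c6 * ∑ i, (X i * N i)
      + c7 * ∑ i, (X i * N' i)
      + c8 * ∑ i, (X' i * N i) + c9 * ∑ i, (X' i * N' i) := by
  simp only [Finset.sum_add_distrib, Finset.mul_sum]

theorem trace {q b : ℝ} (hq : 0 < q) (hb : 0 < b) {x n : Fin 4 → ℂ}
    (h : ∀ i j, (((q : ℂ) * (x i * conj (x j)) + (b : ℂ) * (n i * conj (n j))).re : ℝ)
      = if i = j then 1 else 0) (A B c2 : ℝ) (β y ν : ℂ) :
    ∑ i, (2 * A * (x i * conj y).im ^ 2 + 2 * (b * c2) * (n i * conj ν).im ^ 2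
        + 4 * (b * B) * (x i * conj y).im * (n i * conj ν).im
        + b * B * ‖x i * conj ν - y * conj (n i)‖ ^ 2
        + 4 * (x i * conj y).im * (β * (x i * conj ν - y * conj (n i))).im)
      = 2 * A * ‖y‖ ^ 2 / q + 2 * c2 * ‖ν‖ ^ 2 + b * B * (2 * ‖ν‖ ^ 2 / q + 2 * ‖y‖ ^ 2 / b)
        + 4 * (conj y * ν * conj β).re / q := by
  have h' : ∀ i j, q * ((x i).re * (x j).re + (x i).im * (x j).im)
      + b * ((n i).re * (n j).re + (n i).im * (n j).im) = if i = j then 1 else 0 := by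
    intro i j
    rw [← h i j]
    simp only [Complex.add_re, Complex.mul_re, Complex.mul_im, Complex.conj_re,
      Complex.conj_im, Complex.ofReal_re, Complex.ofReal_im]
    ring
  obtain ⟨e0, e1, e2, e3, e4, e5, e6, e7, e8, e9⟩ := tr_ortho (fun i => (x i).re)
    (fun i => (x i).im) (fun i => (n i).re) (fun i => (n i).im) h'
  have zq : ∀ s : ℝ, q * s = 1 → s = 1 / q := fun s hs => by
    rw [eq_div_iff hq.ne']
    linarith
  have zb : ∀ s : ℝ, b * s = 1 → s = 1 / b := fun s hs => by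
    rw [eq_div_iff hb.ne']
    linarith
  have zq0 : ∀ s : ℝ, q * s = 0 → s = 0 := fun s hs =>
    (mul_eq_zero.mp hs).resolve_left hq.ne'
  have zb0 : ∀ s : ℝ, b * s = 0 → s = 0 := fun s hs =>
    (mul_eq_zero.mp hs).resolve_left hb.ne'
  rw [Finset.sum_congr rfl (fun i _ => tr_expand A (b * c2) (b * B) (x i) (n i) β y ν)]
  rw [tr_sum _ _ _ _ _ _ _ _ _ _ (fun i => (x i).re) (fun i => (x i).im)
    (fun i => (n i).re) (fun i => (n i).im)]
  rw [zq _ e0, zq _ e1, zq0 _ e2, zb _ e3, zb _ e4, zb0 _ e5, zq0 _ e6, zq0 _ e7, zq0 _ e8,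
    zq0 _ e9]
  rw [← Complex.normSq_eq_norm_sq, Complex.normSq_apply, ← Complex.normSq_eq_norm_sq,
    Complex.normSq_apply]
  simp only [Complex.mul_re, Complex.mul_im, Complex.conj_re, Complex.conj_im]
  field_simp
  ring

end Pool.Agent.KS6_69.Ric.H662.Rg
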