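import Pool.Agent.KS6_69.Ric.H662.Rg.Defs
import Pool.Agent.KS6_69.Ric.H662.Rg.P_fibre

set_option autoImplicit false
set_option linter.unusedVariables false

namespace Pool.Agent.KS6_69.Ric.H662.Rg
open Set Filter Topology ComplexConjugate


theorem constant {k : ℂ → ℝ} (hk : Continuous k) (hpos : ∀ z, 0 < k z)
    (hkill : ∀ m : ℕ, 1 ≤ m → ∀ F : ℂ → ℂ, Differentiable ℂ F → ∀ C : ℝ,
      (∀ z, ‖F z‖ ^ 2 ≤ C * k z ^ m) → ∀ z, F z = 0) {f : ℂ × ℂ → ℂ} {Bd : ℝ}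
    (hf : DifferentiableOn ℂ f {p : ℂ × ℂ | ‖p.2‖ ^ 2 * k p.1 < 1})
    (hb : ∀ p : ℂ × ℂ, ‖p.2‖ ^ 2 * k p.1 < 1 → ‖f p‖ ≤ Bd) :
    ∃ c : ℂ, ∀ p : ℂ × ℂ, ‖p.2‖ ^ 2 * k p.1 < 1 → f p = c := by
  have hz0 : ∀ m : ℕ, 1 ≤ m → ∀ z : ℂ, iteratedDeriv m (fun w => f (z, w)) 0 = 0 := by
    intro m hm z
    obtain ⟨h1, h2⟩ := fibre hk hpos hf hb m
    have hd : Differentiable ℂ
        (fun z => iteratedDeriv m (fun w => f (z, w)) 0 / (m.factorial : ℂ)) :=
      h1.div_const _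
    have h3 := hkill m hm (fun z => iteratedDeriv m (fun w => f (z, w)) 0 / (m.factorial : ℂ))
      hd (Bd ^ 2) h2 z
    have hfac : ((m.factorial : ℕ) : ℂ) ≠ 0 := by
      exact_mod_cast Nat.factorial_ne_zero m
    simpa [div_eq_zero_iff, hfac] using h3
  -- f(z,w) = f(z,0)
  have hconst : ∀ z w : ℂ, ‖w‖ ^ 2 * k z < 1 → f (z, w) = f (z, 0) := by
    intro z w hw
    set r : ℝ := 1 / Real.sqrt (k z) with hr
    have hsq : 0 < Real.sqrt (k z) := Real.sqrt_pos.mpr (hpos z)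
    have hrpos : 0 < r := by rw [hr]; positivity
    have hmem : ∀ u : ℂ, ‖u‖ < r ↔ ‖u‖ ^ 2 * k z < 1 := by
      intro u
      have e1 : ‖u‖ ^ 2 * k z = (‖u‖ * Real.sqrt (k z)) ^ 2 := by
        rw [mul_pow, Real.sq_sqrt (hpos z).le]
      rw [hr, lt_div_iff₀ hsq, e1]
      constructor
      · intro h
        have : 0 ≤ ‖u‖ * Real.sqrt (k z) := by positivity
        nlinarith
      · intro h
        by_contra hc
        push Not at hc
        nlinarith
    have hdiff : DifferentiableOn ℂ (fun w => f (z, w)) (Metric.ball 0 r) := by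
      intro u hu
      have hu' : ‖u‖ ^ 2 * k z < 1 := (hmem u).1 (by simpa using hu)
      have h1 : DifferentiableWithinAt ℂ f {p : ℂ × ℂ | ‖p.2‖ ^ 2 * k p.1 < 1} (z, u) :=
        hf (z, u) hu'
      have h2 : DifferentiableWithinAt ℂ (fun w : ℂ => ((z, w) : ℂ × ℂ)) (Metric.ball 0 r) u := by
        fun_prop
      refine DifferentiableWithinAt.comp u h1 h2 ?_
      intro v hv
      exact (hmem v).1 (by simpa using hv)
    have hwb : w ∈ Metric.ball (0:ℂ) r := by simpa using (hmem w).2 hw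
    have hs := Complex.hasSum_taylorSeries_on_ball hdiff hwb
    have hs2 : HasSum (fun n : ℕ => ((n.factorial : ℂ))⁻¹ • (w - 0) ^ n •
        iteratedDeriv n (fun w => f (z, w)) 0) (f (z, 0)) := by
      have := hasSum_single (f := fun n : ℕ => ((n.factorial : ℂ))⁻¹ • (w - 0) ^ n •
        iteratedDeriv n (fun w => f (z, w)) 0) 0 (by
          intro n hn
          have : iteratedDeriv n (fun w => f (z, w)) 0 = 0 := hz0 n (Nat.one_le_iff_ne_zero.mpr hn) z
          simp only [this, smul_zero])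
      simpa using this
    exact hs.unique hs2
  -- z ↦ f(z,0)
  have hent : Differentiable ℂ (fun z => f (z, 0)) := by
    intro z
    have hopen : IsOpen {p : ℂ × ℂ | ‖p.2‖ ^ 2 * k p.1 < 1} := by
      apply isOpen_lt <;> fun_prop
    have hz : ((z, 0) : ℂ × ℂ) ∈ {p : ℂ × ℂ | ‖p.2‖ ^ 2 * k p.1 < 1} := by simp
    have h1 : DifferentiableAt ℂ f (z, 0) := (hf (z, 0) hz).differentiableAt (hopen.mem_nhds hz)
    have h2 : DifferentiableAt ℂ (fun z : ℂ => ((z, 0) : ℂ × ℂ)) z := by fun_prop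
    exact DifferentiableAt.comp z h1 h2
  have hbdd : Bornology.IsBounded (Set.range (fun z => f (z, 0))) := by
    rw [isBounded_iff_forall_norm_le]
    refine ⟨Bd, ?_⟩
    rintro _ ⟨z, rfl⟩
    exact hb (z, 0) (by simp)
  refine ⟨f (0, 0), ?_⟩
  rintro ⟨z, w⟩ hp
  rw [hconst z w hp]
  exact hent.apply_eq_apply_of_bounded hbdd z 0

end Pool.Agent.KS6_69.Ric.H662.Rg
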