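import Pool.Agent.KS6_69.Ric.H662.Rg.Defs

set_option autoImplicit false
set_option linter.unusedVariables false

namespace Pool.Agent.KS6_69.Ric.H662.Rg
open Set Filter Topology ComplexConjugate


theorem paths {k : ℂ → ℝ} (hk : Continuous k) (hpos : ∀ z, 0 < k z) {p q : ℂ × ℂ}
    (hp : ‖p.2‖ ^ 2 * k p.1 < 1) (hq : ‖q.2‖ ^ 2 * k q.1 < 1) :
    ∃ c : ℝ → ℂ × ℂ, ContDiff ℝ 1 c ∧ c 0 = p ∧ c 1 = q ∧
      ∀ t ∈ Set.Icc (0 : ℝ) 1, ‖(c t).2‖ ^ 2 * k (c t).1 < 1 := by
  have hS : ContDiff ℝ 1 Real.smoothTransition := Real.smoothTransition.contDiff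
  have hS1 : ContDiff ℝ 1 (fun t : ℝ => Real.smoothTransition (3 * t - 1)) :=
    hS.comp ((contDiff_const.mul contDiff_id).sub contDiff_const)
  have hS2 : ContDiff ℝ 1 (fun t : ℝ => Real.smoothTransition (3 * t - 2)) :=
    hS.comp ((contDiff_const.mul contDiff_id).sub contDiff_const)
  have hS0 : ContDiff ℝ 1 (fun t : ℝ => Real.smoothTransition (3 * t)) :=
    hS.comp (contDiff_const.mul contDiff_id)
  refine ⟨fun t => (p.1 + Real.smoothTransition (3 * t - 1) • (q.1 - p.1),
    (1 - Real.smoothTransition (3 * t)) • p.2 + Real.smoothTransition (3 * t - 2) • q.2),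
    ?_, ?_, ?_, ?_⟩
  · exact (contDiff_const.add (hS1.smul contDiff_const)).prodMk
      (((contDiff_const.sub hS0).smul contDiff_const).add (hS2.smul contDiff_const))
  · have h1 : Real.smoothTransition (3 * 0 - 1) = 0 :=
      Real.smoothTransition.zero_of_nonpos (by norm_num)
    have h2 : Real.smoothTransition (3 * 0) = 0 :=
      Real.smoothTransition.zero_of_nonpos (by norm_num)
    have h3 : Real.smoothTransition (3 * 0 - 2) = 0 :=
      Real.smoothTransition.zero_of_nonpos (by norm_num)
    simp only [h1, h2, h3]
    simp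
  · have h1 : Real.smoothTransition (3 * 1 - 1) = 1 :=
      Real.smoothTransition.one_of_one_le (by norm_num)
    have h2 : Real.smoothTransition (3 * 1) = 1 :=
      Real.smoothTransition.one_of_one_le (by norm_num)
    have h3 : Real.smoothTransition (3 * 1 - 2) = 1 :=
      Real.smoothTransition.one_of_one_le (by norm_num)
    simp only [h1, h2, h3]
    simp
  · rintro t ⟨ht0, ht1⟩
    show ‖(1 - Real.smoothTransition (3 * t)) • p.2 +
        Real.smoothTransition (3 * t - 2) • q.2‖ ^ 2 *
        k (p.1 + Real.smoothTransition (3 * t - 1) • (q.1 - p.1)) < 1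
    rcases le_total t (1 / 3) with h | h
    · have h1 : Real.smoothTransition (3 * t - 1) = 0 :=
        Real.smoothTransition.zero_of_nonpos (by linarith)
      have h3 : Real.smoothTransition (3 * t - 2) = 0 :=
        Real.smoothTransition.zero_of_nonpos (by linarith)
      rw [h1, h3, zero_smul, zero_smul, add_zero, add_zero]
      refine lt_of_le_of_lt ?_ hp
      apply mul_le_mul_of_nonneg_right _ (hpos _).le
      apply pow_le_pow_left₀ (norm_nonneg _)
      rw [norm_smul, Real.norm_eq_abs, abs_of_nonneg (by
        have := Real.smoothTransition.le_one (3 * t); linarith)]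
      have h4 := Real.smoothTransition.nonneg (3 * t)
      have h5 := norm_nonneg p.2
      nlinarith
    · rcases le_total t (2 / 3) with h' | h'
      · have h2 : Real.smoothTransition (3 * t) = 1 :=
          Real.smoothTransition.one_of_one_le (by linarith)
        have h3 : Real.smoothTransition (3 * t - 2) = 0 :=
          Real.smoothTransition.zero_of_nonpos (by linarith)
        rw [h2, h3, sub_self, zero_smul, zero_smul, add_zero, norm_zero]
        norm_num
      · have h1 : Real.smoothTransition (3 * t - 1) = 1 :=
          Real.smoothTransition.one_of_one_le (by linarith)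
        have h2 : Real.smoothTransition (3 * t) = 1 :=
          Real.smoothTransition.one_of_one_le (by linarith)
        rw [h1, h2, sub_self, zero_smul, zero_add, one_smul, add_sub_cancel]
        refine lt_of_le_of_lt ?_ hq
        apply mul_le_mul_of_nonneg_right _ (hpos _).le
        apply pow_le_pow_left₀ (norm_nonneg _)
        have h4 := Real.smoothTransition.nonneg (3 * t - 2)
        have h6 := Real.smoothTransition.le_one (3 * t - 2)
        rw [norm_smul, Real.norm_eq_abs, abs_of_nonneg h4]
        have h5 := norm_nonneg q.2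
        nlinarith

end Pool.Agent.KS6_69.Ric.H662.Rg
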