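import Pool.Agent.KS6_69.Ric.H662.Rg.Defs

set_option autoImplicit false
set_option linter.unusedVariables false

namespace Pool.Agent.KS6_69.Ric.H662.Rg
open Set Filter Topology ComplexConjugate


theorem simply {k : ℂ → ℝ} (hk : Continuous k) (hpos : ∀ z, 0 < k z) :
    SimplyConnectedSpace ({p : ℂ × ℂ | True ∧ ‖p.2‖ ^ 2 * k p.1 < 1} : Set (ℂ × ℂ)) := by
  set U : Set (ℂ × ℂ) := {p : ℂ × ℂ | True ∧ ‖p.2‖ ^ 2 * k p.1 < 1} with hU
  set V : Set (ℂ × ℂ) := {p : ℂ × ℂ | ‖p.2‖ < 1} with hV
  have hVc : Convex ℝ V := by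
    have : V = (Set.univ : Set ℂ) ×ˢ Metric.ball (0 : ℂ) 1 := by
      ext p
      simp [hV, Set.mem_prod]
    rw [this]
    exact convex_univ.prod (convex_ball _ _)
  have hVn : V.Nonempty := ⟨(0, 0), by simp [hV]⟩
  have hVcon : ContractibleSpace V := hVc.contractibleSpace hVn
  have hks : ∀ z : ℂ, 0 < Real.sqrt (k z) := fun z => Real.sqrt_pos.mpr (hpos z)
  let f : U → V := fun p => ⟨(p.1.1, ((Real.sqrt (k p.1.1) : ℝ) : ℂ) * p.1.2), by
    have h1 := p.2.2
    have h2 := hks p.1.1
    show ‖((Real.sqrt (k p.1.1) : ℝ) : ℂ) * p.1.2‖ < 1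
    simp only [norm_mul, Complex.norm_real, Real.norm_eq_abs, abs_of_pos h2]
    have h3 : (Real.sqrt (k p.1.1) * ‖p.1.2‖) ^ 2 < 1 := by
      rw [mul_pow, Real.sq_sqrt (hpos _).le]
      linarith
    nlinarith [norm_nonneg p.1.2, mul_nonneg h2.le (norm_nonneg p.1.2)]⟩
  let g : V → U := fun p => ⟨(p.1.1, p.1.2 / ((Real.sqrt (k p.1.1) : ℝ) : ℂ)), by
    refine ⟨trivial, ?_⟩
    have h1 : ‖p.1.2‖ < 1 := p.2
    have h2 := hks p.1.1
    simp only [norm_div, Complex.norm_real, Real.norm_eq_abs, abs_of_pos h2]
    rw [div_pow, Real.sq_sqrt (hpos _).le, div_mul_cancel₀ _ (hpos _).ne']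
    nlinarith [norm_nonneg p.1.2]⟩
  have kU : Continuous fun p : U => k p.1.1 :=
    hk.comp (continuous_fst.comp continuous_subtype_val)
  have kV : Continuous fun p : V => k p.1.1 :=
    hk.comp (continuous_fst.comp continuous_subtype_val)
  let e : U ≃ₜ V :=
    { toFun := f
      invFun := g
      left_inv := by
        intro p
        have h2 : ((Real.sqrt (k p.1.1) : ℝ) : ℂ) ≠ 0 := by
          exact_mod_cast (hks p.1.1).ne'
        apply Subtype.ext
        apply Prod.ext
        · rfl
        · simp only [f, g]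
          exact mul_div_cancel_left₀ _ h2
      right_inv := by
        intro p
        have h2 : ((Real.sqrt (k p.1.1) : ℝ) : ℂ) ≠ 0 := by
          exact_mod_cast (hks p.1.1).ne'
        apply Subtype.ext
        apply Prod.ext
        · rfl
        · simp only [f, g]
          exact mul_div_cancel₀ _ h2
      continuous_toFun := by
        refine Continuous.subtype_mk ?_ _
        refine Continuous.prodMk (continuous_fst.comp continuous_subtype_val) ?_
        exact (Complex.continuous_ofReal.comp (Real.continuous_sqrt.comp kU)).mul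
          (continuous_snd.comp continuous_subtype_val)
      continuous_invFun := by
        refine Continuous.subtype_mk ?_ _
        refine Continuous.prodMk (continuous_fst.comp continuous_subtype_val) ?_
        refine Continuous.div (continuous_snd.comp continuous_subtype_val)
          (Complex.continuous_ofReal.comp (Real.continuous_sqrt.comp kV)) ?_
        intro p
        exact_mod_cast (hks p.1.1).ne' }
  have : ContractibleSpace U := e.contractibleSpace
  infer_instance

end Pool.Agent.KS6_69.Ric.H662.Rg
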