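import Pool.Agent.KS6_69.Ric.H662.Rg.Defs

set_option autoImplicit false
set_option linter.unusedVariables false

namespace Pool.Agent.KS6_69.Ric.H662.Rg
open Set Filter Topology ComplexConjugate


theorem sublevel {k ψ : ℂ → ℝ} (hk : Continuous k) (hpos : ∀ z, 0 < k z) (hψ : Continuous ψ)
    (hψn : ∀ z, ‖z‖ ≤ ψ z) (a : ℝ) :
    IsCompact {p : ℂ × ℂ | (True ∧ ‖p.2‖ ^ 2 * k p.1 < 1) ∧
      ψ p.1 + Real.log ((1 - ‖p.2‖ ^ 2 * k p.1)⁻¹) ≤ a} := by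
  have hlog : ∀ p : ℂ × ℂ, ‖p.2‖ ^ 2 * k p.1 < 1 →
      0 ≤ Real.log ((1 - ‖p.2‖ ^ 2 * k p.1)⁻¹) := by
    intro p hp
    apply Real.log_nonneg
    have h0 : 0 ≤ ‖p.2‖ ^ 2 * k p.1 := mul_nonneg (by positivity) (hpos _).le
    exact (one_le_inv₀ (by linarith)).mpr (by linarith)
  have hset : {p : ℂ × ℂ | (True ∧ ‖p.2‖ ^ 2 * k p.1 < 1) ∧
      ψ p.1 + Real.log ((1 - ‖p.2‖ ^ 2 * k p.1)⁻¹) ≤ a} =
      {p : ℂ × ℂ | ‖p.1‖ ≤ a ∧ ‖p.2‖ ^ 2 * k p.1 ≤ 1 - Real.exp (-a)} ∩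
        (fun p : ℂ × ℂ => ψ p.1 + Real.log ((1 - ‖p.2‖ ^ 2 * k p.1)⁻¹)) ⁻¹' Set.Iic a := by
    ext p
    constructor
    · rintro ⟨⟨-, h1⟩, h2⟩
      have h3 := hlog p h1
      have h4 := hψn p.1
      have h5 : Real.log ((1 - ‖p.2‖ ^ 2 * k p.1)⁻¹) ≤ a := by
        linarith [norm_nonneg p.1]
      refine ⟨⟨by linarith, ?_⟩, h2⟩
      rw [Real.log_inv] at h5
      have h6 : 0 < 1 - ‖p.2‖ ^ 2 * k p.1 := by linarith
      have h7 : Real.exp (-a) ≤ 1 - ‖p.2‖ ^ 2 * k p.1 := by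
        rw [← Real.exp_log h6]
        exact Real.exp_le_exp.mpr (by linarith)
      linarith
    · rintro ⟨⟨h1, h2⟩, h3⟩
      refine ⟨⟨trivial, ?_⟩, h3⟩
      have := Real.exp_pos (-a)
      linarith
  rw [hset]
  have hC : IsClosed {p : ℂ × ℂ | ‖p.1‖ ≤ a ∧ ‖p.2‖ ^ 2 * k p.1 ≤ 1 - Real.exp (-a)} := by
    have e1 : IsClosed {p : ℂ × ℂ | ‖p.1‖ ≤ a} := isClosed_le (by fun_prop) continuous_const
    have e2 : IsClosed {p : ℂ × ℂ | ‖p.2‖ ^ 2 * k p.1 ≤ 1 - Real.exp (-a)} :=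
      isClosed_le (by fun_prop) continuous_const
    exact e1.inter e2
  have hclosed : IsClosed ({p : ℂ × ℂ | ‖p.1‖ ≤ a ∧ ‖p.2‖ ^ 2 * k p.1 ≤ 1 - Real.exp (-a)} ∩
        (fun p : ℂ × ℂ => ψ p.1 + Real.log ((1 - ‖p.2‖ ^ 2 * k p.1)⁻¹)) ⁻¹' Set.Iic a) := by
    refine ContinuousOn.preimage_isClosed_of_isClosed ?_ hC isClosed_Iic
    have h1 : ∀ p ∈ {p : ℂ × ℂ | ‖p.1‖ ≤ a ∧ ‖p.2‖ ^ 2 * k p.1 ≤ 1 - Real.exp (-a)},
        1 - ‖p.2‖ ^ 2 * k p.1 ≠ 0 := by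
      intro p hp
      have := Real.exp_pos (-a)
      have := hp.2
      linarith
    refine ContinuousOn.add (by fun_prop) (ContinuousOn.log (ContinuousOn.inv₀ (by fun_prop) h1) ?_)
    intro p hp
    exact inv_ne_zero (h1 p hp)
  -- boundedness
  obtain ⟨c, hc, hck⟩ : ∃ c, 0 < c ∧ ∀ z ∈ Metric.closedBall (0:ℂ) a, c ≤ k z := by
    by_cases ha : 0 ≤ a
    · obtain ⟨z, _, hz⟩ := (isCompact_closedBall (0:ℂ) a).exists_isMinOn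
        ⟨0, Metric.mem_closedBall_self ha⟩ hk.continuousOn
      exact ⟨k z, hpos z, fun w hw => hz hw⟩
    · refine ⟨1, one_pos, fun z hz => absurd hz ?_⟩
      rw [Metric.closedBall_eq_empty.mpr (by linarith)]
      exact Set.notMem_empty _
  refine IsCompact.of_isClosed_subset
    ((isCompact_closedBall (0:ℂ) a).prod (isCompact_closedBall (0:ℂ) (1 + 1 / c))) hclosed ?_
  rintro p ⟨⟨h1, h2⟩, -⟩
  have m1 : p.1 ∈ Metric.closedBall (0:ℂ) a := by rw [mem_closedBall_zero_iff]; exact h1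
  refine ⟨m1, ?_⟩
  rw [mem_closedBall_zero_iff]
  have h3 := hck p.1 m1
  have h4 : ‖p.2‖ ^ 2 * c ≤ 1 := by
    have h5 := mul_le_mul_of_nonneg_left h3 (by positivity : 0 ≤ ‖p.2‖ ^ 2)
    have := Real.exp_pos (-a)
    linarith
  have h6 : ‖p.2‖ ^ 2 ≤ 1 / c := by rw [le_div_iff₀ hc]; exact h4
  nlinarith [sq_nonneg (‖p.2‖ - 1), norm_nonneg p.2]

end Pool.Agent.KS6_69.Ric.H662.Rg
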