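import Pool.Agent.KS6_69.Ric.H662.Rg.Defs
import Pool.Agent.KS6_69.Ric.H662.Rg.P_avg0

set_option autoImplicit false
set_option linter.unusedVariables false

namespace Pool.Agent.KS6_69.Ric.H662.Rg
open Set Filter Topology ComplexConjugate


theorem avg {f : ℂ → ℂ} (hf : Differentiable ℂ f) {n l : ℕ} (hl : l < n) {R ρ ε S : ℝ}
    (hR : 0 < R) (hρ0 : 0 < ρ) (hρ1 : ρ < 1)
    (hε : ∀ z : ℂ, ‖z‖ = R → z ^ n = ((R ^ n : ℝ) : ℂ) → ‖f z‖ ≤ ε)
    (hS : ∀ z : ℂ, ‖z‖ = R / ρ → ‖f z‖ ≤ S) :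
    ‖iteratedDeriv l f 0 / (l.factorial : ℂ)‖ * R ^ l ≤ ε + S * ρ ^ n / (1 - ρ ^ n) := by
  set c : ℂ := ((R / ρ ^ 2 : ℝ) : ℂ) with hc
  have hcn : ‖c‖ = R / ρ ^ 2 := by
    rw [hc, Complex.norm_real, Real.norm_eq_abs, abs_of_pos (by positivity)]
  have hg : DifferentiableOn ℂ (fun z => f (c * z)) (Metric.ball 0 1) :=
    (hf.comp (differentiable_id.const_mul c)).differentiableOn
  have h1 := avg0 hg hl hρ0 hρ1 (ε := ε) (S := S)
    (fun z hz hzn => by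
      apply hε
      · rw [norm_mul, hcn, hz]; field_simp
      · rw [mul_pow, hzn, hc, ← Complex.ofReal_pow, ← Complex.ofReal_mul, ← mul_pow]
        congr 2
        field_simp)
    (fun z hz => by
      apply hS
      rw [norm_mul, hcn, hz]; field_simp)
  have h2 : iteratedDeriv l (fun z => f (c * z)) 0 = c ^ l * iteratedDeriv l f 0 := by
    have h3 := congrFun (iteratedDeriv_comp_const_mul (n := l) (f := f) hf.contDiff c) 0
    rw [h3, mul_zero]
  rw [h2, mul_div_assoc, norm_mul, norm_pow, hcn] at h1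
  have h4 : (R / ρ ^ 2) ^ l * ‖iteratedDeriv l f 0 / (l.factorial : ℂ)‖ * (ρ ^ 2) ^ l
      = ‖iteratedDeriv l f 0 / (l.factorial : ℂ)‖ * R ^ l := by
    rw [mul_right_comm, ← mul_pow, div_mul_cancel₀ _ (by positivity), mul_comm]
  rw [h4] at h1
  exact h1

end Pool.Agent.KS6_69.Ric.H662.Rg
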